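import Mathlib
import Pool.Agent.NH69.TV3

/-!
# MP_b549f0_co: trivalent graphs with prescribed automorphism group

For every `ε > 0` there is `D` such that every finite group `G` with `d(G) > D` satisfies
`v³(G) < (2 + ε) |G| d(G)`.  The construction: for every `g ∈ G` one copy of a fixed rigid gadget
with 24 vertices (the truncation of a multigraph-like cubic piece, in which every vertex lies in a
triangle) carrying two paths of `d` ports `a_1(g), …, a_d(g)` and `b_1(g), …, b_d(g)`, and the
external edges `a_j(g) b_j(g s_j)`.
-/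

namespace Pool.Agent.Results.MP_b549f0_co.TwoPlusEps

open Pool.Agent.NH69.TV

universe u

/-- There is a trivalent simple graph on `m` vertices whose automorphism group is isomorphic
to `G`. -/
def HasTrivalentRep (G : Type u) [Group G] (m : ℕ) : Prop :=
  ∃ X : SimpleGraph (Fin m), (∀ v, (X.neighborSet v).ncard = 3) ∧ Nonempty ((X ≃g X) ≃* G)

/-- `v³(G)`: the minimum number of vertices of a trivalent graph representing `G`. -/
noncomputable def v3 (G : Type u) [Group G] : ℕ := sInf {m | HasTrivalentRep G m}

lemma exists_rep (G : Type u) [Group G] [Finite G] (hd : 1 ≤ Group.rank G) :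
    HasTrivalentRep G (Nat.card G * (24 + 2 * Group.rank G)) := by
  classical
  have : Fintype G := Fintype.ofFinite G
  obtain ⟨S, hScard, hS⟩ := Group.rank_spec G
  let e := S.equivFin
  have hcard : S.card = Group.rank G := hScard
  let s : Fin (Group.rank G) → G := fun i => (S.equivFin.symm (Fin.cast hcard.symm i)).val
  have hrange : Set.range s = ↑S := by
    ext x
    constructor
    · rintro ⟨i, rfl⟩
      exact (S.equivFin.symm (Fin.cast hcard.symm i)).2
    · intro hx
      refine ⟨Fin.cast hcard (S.equivFin ⟨x, hx⟩), ?_⟩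
      simp [s]
  have hs : Subgroup.closure (Set.range s) = ⊤ := by rw [hrange, hS]
  have hV : Fintype.card (G × Lab (Group.rank G)) = Nat.card G * (24 + 2 * Group.rank G) := by
    simp [Nat.card_eq_fintype_card]
  let f : (G × Lab (Group.rank G)) ≃ Fin (Nat.card G * (24 + 2 * Group.rank G)) :=
    Fintype.equivFinOfCardEq hV
  let Y : SimpleGraph (Fin (Nat.card G * (24 + 2 * Group.rank G))) := (X s).map f.toEmbedding
  let iso : X s ≃g Y := SimpleGraph.Iso.map f (X s)
  refine ⟨Y, ?_, ?_⟩
  · intro v
    have h1 : (Y.neighborSet v) = iso '' ((X s).neighborSet (iso.symm v)) := by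
      ext w
      rw [SimpleGraph.mem_neighborSet]
      constructor
      · intro h
        refine ⟨iso.symm w, ?_, by simp⟩
        rw [SimpleGraph.mem_neighborSet, ← iso.map_adj_iff]
        simpa using h
      · rintro ⟨w', h, rfl⟩
        rw [SimpleGraph.mem_neighborSet, ← iso.map_adj_iff] at h
        simpa using h
    rw [h1, Set.ncard_image_of_injective _ iso.injective]
    exact ncard_three s hd _
  · refine ⟨MulEquiv.trans ?_ (autEquiv s hs).symm⟩
    exact
      { toFun := fun φ => (iso.trans φ).trans iso.symm
        invFun := fun ψ => (iso.symm.trans ψ).trans iso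
        left_inv := by
          intro φ
          ext1 v
          simp
        right_inv := by
          intro ψ
          ext1 v
          simp
        map_mul' := by
          intro φ ψ
          ext1 v
          simp }

/-- The explicit bound `v³(G) ≤ n (24 + 2 d)`. -/
lemma v3_le (G : Type u) [Group G] [Finite G] (hd : 1 ≤ Group.rank G) :
    v3 G ≤ Nat.card G * (24 + 2 * Group.rank G) :=
  Nat.sInf_le (exists_rep G hd)

/-- **MP_b549f0_co, Q1** (affirmative answer). -/
theorem result : ∀ ε : ℝ, 0 < ε → ∃ D : ℕ, ∀ (G : Type u) [Group G] [Finite G],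
    D < Group.rank G →
      (∃ m, HasTrivalentRep G m) ∧ (v3 G : ℝ) < (2 + ε) * Nat.card G * Group.rank G := by
  intro ε hε
  obtain ⟨D, hD⟩ := exists_nat_gt (24 / ε)
  refine ⟨D, fun G _ _ hG => ⟨⟨_, exists_rep G (by omega)⟩, ?_⟩⟩
  have h1 : (v3 G : ℝ) ≤ Nat.card G * (24 + 2 * Group.rank G) := by
    exact_mod_cast v3_le G (by omega)
  have h2 : (0 : ℝ) < Nat.card G := by
    exact_mod_cast Nat.card_pos
  have h3 : (D : ℝ) < Group.rank G := by exact_mod_cast hG
  have h4 : 24 < ε * Group.rank G := by
    rw [div_lt_iff₀ hε] at hD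
    nlinarith
  have h5 : (24 + 2 * (Group.rank G : ℝ)) < (2 + ε) * Group.rank G := by linarith
  calc (v3 G : ℝ) ≤ Nat.card G * (24 + 2 * Group.rank G) := h1
    _ < Nat.card G * ((2 + ε) * Group.rank G) := by
        exact mul_lt_mul_of_pos_left h5 h2
    _ = (2 + ε) * Nat.card G * Group.rank G := by ring

end Pool.Agent.Results.MP_b549f0_co.TwoPlusEps
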